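import Mathlib

/-!
# MP_e848aa_gt: closed images of hereditarily metalindelof spaces

If `f : X → Y` is a closed mapping such that the preimages of the open subsets of `Y` are
metalindelof, then every subspace of `Y` is metalindelof.

For a well-ordered family `U i` of open sets of `Y` we construct by induction a point-countable
family of open sets `V i ⊆ U i`, such that `V i` contains the points of `U i` which are in no `U j`
with `j < i`. In the step the members `w` of a point-countable open family of `X` have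
images in unions of the sets `U j`, `j ≤ i w`, for which there is a family `V' w` by induction; the
neighbourhood of `y` with first index `a` is the small image of the union of the sets
`w ∩ f ⁻¹' V' w a`.
-/

set_option autoImplicit false

namespace Pool.Agent.Results.MP_e848aa_gt.HereditaryCase

open Set Topology

universe u v

/-- `V` is a point-countable open cover which refines `U`. -/
def PCRefinement {X : Type u} [TopologicalSpace X] (U V : Set (Set X)) : Prop :=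
  (∀ s ∈ V, IsOpen s) ∧ ⋃₀ V = univ ∧ (∀ s ∈ V, ∃ t ∈ U, s ⊆ t) ∧
    ∀ x : X, {s | s ∈ V ∧ x ∈ s}.Countable

/-- Every open cover has a point-countable open refinement. -/
def Metalindelof (X : Type u) [TopologicalSpace X] : Prop :=
  ∀ U : Set (Set X), (∀ s ∈ U, IsOpen s) → ⋃₀ U = univ → ∃ V, PCRefinement U V

/-- the metalindelof property of an open subspace in terms of open sets of the space -/
lemma of_open {X : Type u} [TopologicalSpace X] {A : Set X} (hA : IsOpen A)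
    (h : Metalindelof A) (U : Set (Set X)) (hU : ∀ s ∈ U, IsOpen s) (hUA : ⋃₀ U = A) :
    ∃ V : Set (Set X), (∀ s ∈ V, IsOpen s) ∧ ⋃₀ V = A ∧ (∀ s ∈ V, ∃ t ∈ U, s ⊆ t) ∧
      ∀ x : X, {s | s ∈ V ∧ x ∈ s}.Countable := by
  obtain ⟨V, hVo, hVc, hVr, hVp⟩ := h ((fun s => (Subtype.val : A → X) ⁻¹' s) '' U) (by
    rintro s ⟨t, ht, rfl⟩
    exact (hU t ht).preimage continuous_subtype_val) (by
    apply Subset.antisymm (subset_univ _)
    rintro ⟨x, hx⟩ _
    rw [← hUA] at hx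
    obtain ⟨t, ht, hxt⟩ := hx
    exact ⟨_, ⟨t, ht, rfl⟩, hxt⟩)
  refine ⟨(fun s => Subtype.val '' s) '' V, ?_, ?_, ?_, ?_⟩
  · rintro s ⟨t, ht, rfl⟩
    exact hA.isOpenMap_subtype_val _ (hVo t ht)
  · apply Subset.antisymm
    · rintro x ⟨s, ⟨t, ht, rfl⟩, ⟨y, hy, rfl⟩⟩
      exact y.2
    · intro x hx
      have : (⟨x, hx⟩ : A) ∈ ⋃₀ V := by rw [hVc]; trivial
      obtain ⟨t, ht, hxt⟩ := this
      exact ⟨_, ⟨t, ht, rfl⟩, ⟨x, hx⟩, hxt, rfl⟩
  · rintro s ⟨t, ht, rfl⟩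
    obtain ⟨r, ⟨r', hr', rfl⟩, htr⟩ := hVr t ht
    refine ⟨r', hr', ?_⟩
    rintro x ⟨y, hy, rfl⟩
    exact htr hy
  · intro x
    by_cases hx : x ∈ A
    · refine ((hVp ⟨x, hx⟩).image (fun s => Subtype.val '' s)).mono ?_
      rintro s ⟨⟨t, ht, rfl⟩, ⟨y, hy, hyx⟩⟩
      refine ⟨t, ⟨ht, ?_⟩, rfl⟩
      have : y = ⟨x, hx⟩ := Subtype.ext hyx
      rwa [← this]
    · have : {s | s ∈ (fun s => (Subtype.val : A → X) '' s) '' V ∧ x ∈ s} = ∅ := by
        ext s
        simp only [mem_ofPred_eq, mem_empty_iff_false, iff_false, not_and]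
        rintro ⟨t, ht, rfl⟩ ⟨y, hy, rfl⟩
        exact hx y.2
      rw [this]
      exact countable_empty

section core

variable {X : Type u} {Y : Type v} [TopologicalSpace X] [TopologicalSpace Y] {ι : Type v}
  [LinearOrder ι]

/-- the family `V` is as wanted for the indices in `I` -/
def Good (U : ι → Set Y) (I : Set ι) (V : ι → Set Y) : Prop :=
  (∀ j, IsOpen (V j)) ∧ (∀ j, V j ⊆ U j) ∧
    (∀ j ∈ I, ∀ y ∈ U j, (∀ k < j, y ∉ U k) → y ∈ V j) ∧
    (∀ t, {j | t ∈ V j}.Countable) ∧ ∀ j ∉ I, V j = ∅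

lemma step (f : X → Y) (hf : Continuous f) (hc : IsClosedMap f) (hs : Function.Surjective f)
    (hX : ∀ O : Set Y, IsOpen O → Metalindelof (f ⁻¹' O)) (U : ι → Set Y)
    (hU : ∀ i, IsOpen (U i)) (I : Set ι)
    (hI : ∀ i ∈ I, ∃ V, Good U (Iic i) V) : ∃ V, Good U I V := by
  classical
  choose VV hVV using hI
  have hO : IsOpen (⋃ j ∈ I, U j) := isOpen_biUnion fun j _ => hU j
  have hP : ∀ i, IsOpen (⋃ j ∈ Iic i, U j) := fun i => isOpen_biUnion fun j _ => hU j
  obtain ⟨W, hWo, hWc, hWr, hWp⟩ := of_open (hO.preimage hf) (hX _ hO)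
    ((fun i => f ⁻¹' (⋃ j ∈ Iic i ∩ I, U j)) '' I) (by
      rintro s ⟨i, _, rfl⟩
      exact (isOpen_biUnion fun j _ => hU j).preimage hf) (by
      ext x
      simp only [mem_sUnion, mem_image, exists_exists_and_eq_and, mem_preimage, mem_iUnion,
        mem_inter_iff, mem_Iic, exists_prop]
      constructor
      · rintro ⟨i, hi, j, ⟨_, hj⟩, hx⟩
        exact ⟨j, hj, hx⟩
      · rintro ⟨j, hj, hx⟩
        exact ⟨j, hj, j, ⟨le_rfl, hj⟩, hx⟩)
  have hWr' : ∀ w : W, ∃ i, ∃ hi : i ∈ I, (w : Set X) ⊆ f ⁻¹' (⋃ j ∈ Iic i ∩ I, U j) := by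
    rintro ⟨w, hw⟩
    obtain ⟨t, ⟨i, hi, rfl⟩, ht⟩ := hWr w hw
    exact ⟨i, hi, ht⟩
  choose i hi hiw using hWr'
  let Oy : Y → ι → Set X := fun y a =>
    ⋃ w : W, ⋃ (_ : ((w : Set X) ∩ f ⁻¹' {y}).Nonempty), (w : Set X) ∩ f ⁻¹' (VV (i w) (hi w) a)
  have hOy : ∀ y a, IsOpen (Oy y a) := fun y a => isOpen_iUnion fun w => isOpen_iUnion fun _ =>
    (hWo w w.2).inter (((hVV (i w) (hi w)).1 a).preimage hf)
  let V : ι → Set Y := fun a => {t | a ∈ I ∧ ∃ y ∈ U a, (∀ k < a, y ∉ U k) ∧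
    t ∈ (f '' (Oy y a)ᶜ)ᶜ}
  have hVmem : ∀ a t x, t ∈ V a → f x = t → ∃ w : W, x ∈ (w : Set X) ∧
      t ∈ VV (i w) (hi w) a := by
    rintro a t x ⟨_, y, _, _, ht⟩ hx
    have hxO : x ∈ Oy y a := by
      by_contra h
      exact ht ⟨x, h, hx⟩
    obtain ⟨w, hw⟩ := mem_iUnion.1 hxO
    obtain ⟨_, hw'⟩ := mem_iUnion.1 hw
    refine ⟨w, hw'.1, ?_⟩
    rw [← hx]
    exact hw'.2
  refine ⟨V, ?_, ?_, ?_, ?_, ?_⟩
  · intro a
    have : V a = ⋃ y ∈ {y | a ∈ I ∧ y ∈ U a ∧ ∀ k < a, y ∉ U k}, (f '' (Oy y a)ᶜ)ᶜ := by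
      ext t
      simp only [V, mem_ofPred_eq, mem_iUnion, exists_prop]
      constructor
      · rintro ⟨h1, y, h2, h3, h4⟩
        exact ⟨y, ⟨h1, h2, h3⟩, h4⟩
      · rintro ⟨y, ⟨h1, h2, h3⟩, h4⟩
        exact ⟨h1, y, h2, h3, h4⟩
    rw [this]
    exact isOpen_biUnion fun y _ => (hc _ (hOy y a).isClosed_compl).isOpen_compl
  · intro a t ht
    obtain ⟨x, hx⟩ := hs t
    obtain ⟨w, _, hw⟩ := hVmem a t x ht hx
    exact (hVV (i w) (hi w)).2.1 a hw
  · intro a ha y hy hmin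
    refine ⟨ha, y, hy, hmin, ?_⟩
    rintro ⟨x, hx, hxy⟩
    apply hx
    have hxW : x ∈ ⋃₀ W := by
      rw [hWc]
      refine mem_iUnion₂.2 ⟨a, ha, ?_⟩
      rw [hxy]
      exact hy
    obtain ⟨w, hw, hxw⟩ := hxW
    have h1 := hiw ⟨w, hw⟩ hxw
    obtain ⟨j, ⟨hj, _⟩, hxj⟩ := mem_iUnion₂.1 h1
    have haj : a ≤ j := by
      by_contra h
      apply hmin j (not_le.1 h)
      rw [← hxy]
      exact hxj
    refine mem_iUnion.2 ⟨⟨w, hw⟩, mem_iUnion.2 ⟨⟨x, hxw, hxy⟩, hxw, ?_⟩⟩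
    have h2 := (hVV (i ⟨w, hw⟩) (hi ⟨w, hw⟩)).2.2.1 a (haj.trans hj) y hy hmin
    rw [mem_preimage, hxy]
    exact h2
  · intro t
    obtain ⟨x, hx⟩ := hs t
    have hcount : (⋃ w ∈ {w : W | x ∈ (w : Set X)}, {a | t ∈ VV (i w) (hi w) a}).Countable := by
      refine Countable.biUnion ?_ fun w _ => (hVV (i w) (hi w)).2.2.2.1 t
      have := (hWp x).preimage (Subtype.val_injective (p := fun w => w ∈ W))
      refine this.mono ?_
      intro w hw
      exact ⟨w.2, hw⟩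
    refine hcount.mono ?_
    intro a ha
    obtain ⟨w, hxw, hw⟩ := hVmem a t x ha hx
    exact mem_iUnion₂.2 ⟨w, hxw, hw⟩
  · intro a ha
    ext t
    simp only [V, mem_ofPred_eq, mem_empty_iff_false, iff_false]
    rintro ⟨h, _⟩
    exact ha h

lemma exists_good [WellFoundedLT ι] (f : X → Y) (hf : Continuous f) (hc : IsClosedMap f)
    (hs : Function.Surjective f) (hX : ∀ O : Set Y, IsOpen O → Metalindelof (f ⁻¹' O))
    (U : ι → Set Y) (hU : ∀ i, IsOpen (U i)) (i : ι) : ∃ V, Good U (Iic i) V := by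
  classical
  induction i using WellFoundedLT.induction with
  | ind i ih =>
    obtain ⟨V, h1, h2, h3, h4, h5⟩ := step f hf hc hs hX U hU (Iio i) fun j hj => ih j hj
    refine ⟨fun j => if j = i then U i else V j, ?_, ?_, ?_, ?_, ?_⟩
    · intro j
      by_cases hj : j = i
      · simp only [hj, if_true]
        exact hU i
      · simp only [hj, if_false]
        exact h1 j
    · intro j
      by_cases hj : j = i
      · simp [hj]
      · simp only [hj, if_false]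
        exact h2 j
    · intro j hj y hy hmin
      by_cases hji : j = i
      · simp only [hji, if_true]
        rwa [hji] at hy
      · simp only [hji, if_false]
        exact h3 j (lt_of_le_of_ne hj hji) y hy hmin
    · intro t
      refine ((h4 t).insert i).mono ?_
      intro j hj
      by_cases hji : j = i
      · exact Or.inl hji
      · simp only [mem_ofPred_eq, hji, if_false] at hj
        exact Or.inr hj
    · intro j hj
      have hji : j ≠ i := fun h => hj (h ▸ le_rfl)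
      simp only [hji, if_false]
      exact h5 j fun h => hj (le_of_lt h)

end core

lemma family_aux {X : Type u} {Y : Type v} [TopologicalSpace X] [TopologicalSpace Y]
    {ι : Type v} [LinearOrder ι] [WellFoundedLT ι]
    (f : X → Y) (hf : Continuous f) (hc : IsClosedMap f) (hs : Function.Surjective f)
    (hX : ∀ O : Set Y, IsOpen O → Metalindelof (f ⁻¹' O)) (U : ι → Set Y)
    (hU : ∀ i, IsOpen (U i)) :
    ∃ V : ι → Set Y, (∀ i, IsOpen (V i)) ∧ (∀ i, V i ⊆ U i) ∧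
      (∀ y, (∃ i, y ∈ U i) → ∃ i, y ∈ V i) ∧ ∀ t, {i | t ∈ V i}.Countable := by
  obtain ⟨V, h1, h2, h3, h4, -⟩ := step f hf hc hs hX U hU univ
    fun i _ => exists_good f hf hc hs hX U hU i
  refine ⟨V, h1, h2, ?_, h4⟩
  intro y hy
  obtain ⟨a, ha, hmin⟩ := (wellFounded_lt (α := ι)).has_min {a : ι | y ∈ U a} hy
  exact ⟨a, h3 a trivial y ha fun k hk h => hmin k h hk⟩

/-- Every open family has a point-countable open refinement with the same union. -/
theorem open_family {X : Type u} {Y : Type v} [TopologicalSpace X] [TopologicalSpace Y]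
    (f : X → Y) (hf : Continuous f) (hc : IsClosedMap f) (hs : Function.Surjective f)
    (hX : ∀ O : Set Y, IsOpen O → Metalindelof (f ⁻¹' O)) (U : Set (Set Y))
    (hU : ∀ s ∈ U, IsOpen s) :
    ∃ V : Set (Set Y), (∀ s ∈ V, IsOpen s) ∧ ⋃₀ V = ⋃₀ U ∧ (∀ s ∈ V, ∃ t ∈ U, s ⊆ t) ∧
      ∀ x : Y, {s | s ∈ V ∧ x ∈ s}.Countable := by
  have hwo : ∃ (o : LinearOrder U), @WellFoundedLT U o.toLT := by
    classical
    exact ⟨linearOrderOfSTO (WellOrderingRel : U → U → Prop), ⟨WellOrderingRel.isWellOrder.wf⟩⟩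
  obtain ⟨o, w⟩ := hwo
  obtain ⟨V, h1, h2, h3, h4⟩ := @family_aux X Y _ _ U o w f hf hc hs hX
    (fun a : U => (a : Set Y)) (fun a => hU a a.2)
  refine ⟨range V, ?_, ?_, ?_, ?_⟩
  · rintro s ⟨a, rfl⟩
    exact h1 a
  · apply Subset.antisymm
    · rintro y ⟨s, ⟨a, rfl⟩, hy⟩
      exact ⟨a, a.2, h2 a hy⟩
    · rintro y ⟨s, hs, hy⟩
      obtain ⟨a, ha⟩ := h3 y ⟨⟨s, hs⟩, hy⟩
      exact ⟨V a, ⟨a, rfl⟩, ha⟩
  · rintro s ⟨a, rfl⟩
    exact ⟨a, a.2, h2 a⟩
  · intro y
    refine ((h4 y).image V).mono ?_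
    rintro s ⟨⟨a, rfl⟩, hy⟩
    exact ⟨a, hy, rfl⟩

/-- Closed images of hereditarily metalindelof spaces are hereditarily metalindelof; it suffices
that the preimages of open sets are metalindelof. -/
theorem result {X : Type u} {Y : Type v} [TopologicalSpace X] [TopologicalSpace Y]
    (f : X → Y) (hf : Continuous f) (hc : IsClosedMap f) (hs : Function.Surjective f)
    (hX : ∀ O : Set Y, IsOpen O → Metalindelof (f ⁻¹' O)) :
    Metalindelof Y ∧ ∀ B : Set Y, Metalindelof B := by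
  constructor
  · intro U hU hcov
    obtain ⟨V, h1, h2, h3, h4⟩ := open_family f hf hc hs hX U hU
    exact ⟨V, h1, h2.trans hcov, h3, h4⟩
  · intro B U hU hcov
    obtain ⟨V, h1, h2, h3, h4⟩ := open_family f hf hc hs hX
      {s | IsOpen s ∧ (Subtype.val : B → Y) ⁻¹' s ∈ U} fun s hs => hs.1
    refine ⟨(fun s => (Subtype.val : B → Y) ⁻¹' s) '' V, ?_, ?_, ?_, ?_⟩
    · rintro s ⟨t, ht, rfl⟩
      exact (h1 t ht).preimage continuous_subtype_val
    · apply Subset.antisymm (subset_univ _)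
      intro b _
      have hb : b ∈ ⋃₀ U := by rw [hcov]; trivial
      obtain ⟨s, hs, hbs⟩ := hb
      obtain ⟨t, ht, rfl⟩ := isOpen_induced_iff.1 (hU s hs)
      have hbt : (b : Y) ∈ ⋃₀ V := by
        rw [h2]
        exact ⟨t, ⟨ht, hs⟩, hbs⟩
      obtain ⟨r, hr, hbr⟩ := hbt
      exact ⟨_, ⟨r, hr, rfl⟩, hbr⟩
    · rintro s ⟨t, ht, rfl⟩
      obtain ⟨r, hr, htr⟩ := h3 t ht
      exact ⟨_, hr.2, preimage_mono htr⟩
    · intro b
      refine ((h4 b).image (fun s => (Subtype.val : B → Y) ⁻¹' s)).mono ?_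
      rintro s ⟨⟨t, ht, rfl⟩, hb⟩
      exact ⟨t, ⟨ht, hb⟩, rfl⟩

end Pool.Agent.Results.MP_e848aa_gt.HereditaryCase
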