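import Mathlib
import Pool.Agent.Helper907.CoversAlephOne

/-!
# MP_e848aa_gt: closed images of metalindelof spaces which have local density at most aleph one

If `f : X → Y` is a closed mapping, `X` is metalindelof and each point of `Y` has a neighbourhood
which is contained in the closure of a set of cardinality at most `ℵ₁`, then `Y` is metalindelof.
A closing off argument decomposes `Y` into clopen pieces, each of which is covered by at most `ℵ₁`
members of a given cover.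
-/

set_option autoImplicit false

namespace Pool.Agent.Results.MP_e848aa_gt.LocalDensity

open Set Topology
open scoped Cardinal
open Pool.Agent.Helper907.CoversAlephOne

universe u v

/-- Every open cover has a point-countable open refinement. -/
def Metalindelof (X : Type u) [TopologicalSpace X] : Prop :=
  ∀ U : Set (Set X), (∀ s ∈ U, IsOpen s) → ⋃₀ U = univ → ∃ V, PCRefinement U V

/-- every open cover has a neighbourhood assignment with countably covered inverse images -/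
lemma neighbornet {X : Type u} {Y : Type v} [TopologicalSpace X] [TopologicalSpace Y]
    {f : X → Y} (hf : Continuous f) (hc : IsClosedMap f) (hs : Function.Surjective f)
    (hX : Metalindelof X) {U : Set (Set Y)} (hU : ∀ s ∈ U, IsOpen s) (hcov : ⋃₀ U = univ) :
    ∃ G : Y → Set Y, (∀ y, IsOpen (G y)) ∧ (∀ y, y ∈ G y) ∧
      ∀ t, ∃ T ⊆ U, T.Countable ∧ ∀ y, t ∈ G y → y ∈ ⋃₀ T := by
  classical
  obtain ⟨W, hWo, hWc, hWr, hWp⟩ := hX ((fun s => f ⁻¹' s) '' U) (by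
    rintro s ⟨t, ht, rfl⟩
    exact (hU t ht).preimage hf) (by
    apply Subset.antisymm (subset_univ _)
    intro x _
    have : f x ∈ ⋃₀ U := by rw [hcov]; trivial
    obtain ⟨s, hs, hx⟩ := this
    exact ⟨_, ⟨s, hs, rfl⟩, hx⟩)
  let O : Y → Set X := fun y => ⋃₀ {w | w ∈ W ∧ (w ∩ f ⁻¹' {y}).Nonempty}
  have hOo : ∀ y, IsOpen (O y) := fun y => isOpen_sUnion fun w hw => hWo w hw.1
  refine ⟨fun y => (f '' (O y)ᶜ)ᶜ, fun y => (hc _ (hOo y).isClosed_compl).isOpen_compl, ?_, ?_⟩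
  · rintro y ⟨x, hx, hxy⟩
    apply hx
    have : x ∈ ⋃₀ W := by rw [hWc]; trivial
    obtain ⟨w, hw, hxw⟩ := this
    exact ⟨w, ⟨hw, x, hxw, hxy⟩, hxw⟩
  · intro t
    obtain ⟨x, rfl⟩ := hs t
    have hsel : ∀ w : Set X, ∃ s : Set Y, w ∈ W → s ∈ U ∧ w ⊆ f ⁻¹' s := by
      intro w
      by_cases hw : w ∈ W
      · obtain ⟨_, ⟨s, hs, rfl⟩, hws⟩ := hWr w hw
        exact ⟨s, fun _ => ⟨hs, hws⟩⟩
      · exact ⟨∅, fun h => absurd h hw⟩
    choose g hg using hsel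
    refine ⟨g '' {w | w ∈ W ∧ x ∈ w}, ?_, (hWp x).image g, ?_⟩
    · rintro s ⟨w, hw, rfl⟩
      exact (hg w hw.1).1
    · intro y hy
      have hxO : x ∈ O y := by
        by_contra h
        exact hy ⟨x, h, rfl⟩
      obtain ⟨w, ⟨hw, z, hzw, hzy⟩, hxw⟩ := hxO
      refine ⟨g w, ⟨w, ⟨hw, hxw⟩, rfl⟩, ?_⟩
      have h1 := (hg w hw).2 hzw
      rw [mem_preimage] at h1
      rwa [show f z = y from hzy] at h1

lemma small_iUnion {ι : Type v} {α : Type v} {I : Set ι} (hI : #I ≤ ℵ₁) {S : ι → Set α}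
    (hS : ∀ i ∈ I, #(S i) ≤ ℵ₁) : #(⋃ i ∈ I, S i : Set α) ≤ ℵ₁ := by
  rw [biUnion_eq_iUnion]
  refine (Cardinal.mk_iUnion_le _).trans ?_
  refine (mul_le_mul' hI (ciSup_le' fun i : I => hS i.1 i.2)).trans ?_
  exact (Cardinal.mul_eq_self (Cardinal.aleph0_le_aleph 1)).le

theorem result {X : Type u} {Y : Type v} [TopologicalSpace X] [TopologicalSpace Y]
    (f : X → Y) (hf : Continuous f) (hc : IsClosedMap f) (hs : Function.Surjective f)
    (hX : Metalindelof X)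
    (hY : ∀ y : Y, ∃ O D : Set Y, IsOpen O ∧ y ∈ O ∧ O ⊆ closure D ∧ #D ≤ ℵ₁) :
    Metalindelof Y := by
  classical
  intro U hU hcov
  have hX1 : AlephOneMetalindelof X := fun U hU hcov _ => hX U hU hcov
  have hY1 : AlephOneMetalindelof Y := closed_image f hf hc hs hX1
  -- small members
  let U' : Set (Set Y) := {O | IsOpen O ∧ (∃ s ∈ U, O ⊆ s) ∧ ∃ D : Set Y, O ⊆ closure D ∧ #D ≤ ℵ₁}
  have hU'cov : ⋃₀ U' = univ := by
    apply Subset.antisymm (subset_univ _)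
    intro y _
    have : y ∈ ⋃₀ U := by rw [hcov]; trivial
    obtain ⟨s, hs, hys⟩ := this
    obtain ⟨O, D, hO, hyO, hOD, hD⟩ := hY y
    exact ⟨O ∩ s, ⟨hO.inter (hU s hs), ⟨s, hs, inter_subset_right⟩, D,
      inter_subset_left.trans hOD, hD⟩, hyO, hys⟩
  obtain ⟨G, hGo, hGy, hG⟩ := neighbornet hf hc hs hX (U := U') (fun s hs => hs.1) hU'cov
  choose T hTU hTc hT using hG
  have hDex : ∀ O : Set Y, ∃ D : Set Y, O ∈ U' → O ⊆ closure D ∧ #D ≤ ℵ₁ := by
    intro O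
    by_cases hO : O ∈ U'
    · obtain ⟨D, hD⟩ := hO.2.2
      exact ⟨D, fun _ => hD⟩
    · exact ⟨∅, fun h => absurd h hO⟩
  choose D hD using hDex
  let S : Set Y → Set (Set Y) := fun O => ⋃ d ∈ D O, T d
  have hSU : ∀ O, S O ⊆ U' := fun O => iUnion₂_subset fun d _ => hTU d
  have hScard : ∀ O ∈ U', #(S O) ≤ ℵ₁ := fun O hO => small_iUnion (hD O hO).2 fun d _ =>
    ((hTc d).le_aleph0).trans (Cardinal.aleph0_le_aleph 1)
  -- unions of closed families are closed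
  have hclosed : ∀ R : Set (Set Y), R ⊆ U' → (∀ O ∈ R, S O ⊆ R) → IsOpen (⋃₀ R)ᶜ := by
    intro R hRU hR
    rw [isOpen_iff_mem_nhds]
    intro y hy
    refine Filter.mem_of_superset ((hGo y).mem_nhds (hGy y)) ?_
    rintro t ht ⟨O, hOR, htO⟩
    obtain ⟨d, hd, hdD⟩ : ((G y ∩ O) ∩ D O).Nonempty := by
      have h1 := (hD O (hRU hOR)).1 htO
      exact mem_closure_iff.1 h1 _ ((hGo y).inter (hRU hOR).1) ⟨ht, htO⟩
    obtain ⟨s, hs, hys⟩ := hT d y hd.1
    exact hy ⟨s, hR O hOR (mem_biUnion hdD hs), hys⟩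
  -- closures of single members
  let E : Set Y → ℕ → Set (Set Y) := fun O n =>
    Nat.rec {O} (fun _ R => R ∪ ⋃ P ∈ R, S P) n
  have hEU : ∀ O ∈ U', ∀ n, E O n ⊆ U' := by
    intro O hO n
    induction n with
    | zero => exact singleton_subset_iff.2 hO
    | succ n ih => exact union_subset ih (iUnion₂_subset fun P _ => hSU P)
  have hEc : ∀ O ∈ U', ∀ n, Cardinal.mk (↥(E O n)) ≤ ℵ₁ := by
    intro O hO n
    induction n with
    | zero =>
      exact (Cardinal.mk_singleton _).le.trans (Cardinal.one_le_aleph0.trans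
        (Cardinal.aleph0_le_aleph 1))
    | succ n ih =>
      refine (Cardinal.mk_union_le _ _).trans ?_
      refine (add_le_add ih (small_iUnion ih fun P hP => hScard P (hEU O hO n hP))).trans ?_
      exact (Cardinal.add_eq_self (Cardinal.aleph0_le_aleph 1)).le
  let Cl : Set Y → Set (Set Y) := fun O => ⋃ n, E O n
  have hClU : ∀ O ∈ U', Cl O ⊆ U' := fun O hO => iUnion_subset fun n => hEU O hO n
  have hClc : ∀ O ∈ U', Cardinal.mk (↥(Cl O)) ≤ ℵ₁ := by
    intro O hO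
    have h1 : Cl O = ⋃ n ∈ (univ : Set (ULift.{v} ℕ)), E O n.down := by
      ext P
      simp only [Cl, mem_iUnion, mem_univ, exists_prop, true_and]
      exact ⟨fun ⟨n, hn⟩ => ⟨⟨n⟩, hn⟩, fun ⟨n, hn⟩ => ⟨n.down, hn⟩⟩
    rw [h1]
    refine small_iUnion ?_ fun n _ => hEc O hO n.down
    exact (Cardinal.mk_le_aleph0).trans (Cardinal.aleph0_le_aleph 1)
  have hClS : ∀ O P, P ∈ Cl O → S P ⊆ Cl O := by
    intro O P hP
    obtain ⟨n, hn⟩ := mem_iUnion.1 hP
    intro Q hQ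
    exact mem_iUnion.2 ⟨n + 1, Or.inr (mem_biUnion hn hQ)⟩
  have hClO : ∀ O, O ∈ Cl O := fun O => mem_iUnion.2 ⟨0, rfl⟩
  -- the pieces
  let r : U' → U' → Prop := WellOrderingRel
  let Q : U' → Set Y := fun O => ⋃₀ Cl O \ ⋃₀ (⋃ P ∈ {P : U' | r P O}, Cl P)
  have hlow : ∀ O : U', IsOpen (⋃₀ (⋃ P ∈ {P : U' | r P O}, Cl (P : Set Y)))ᶜ := by
    intro O
    refine hclosed _ (iUnion₂_subset fun P _ => hClU P P.2) ?_
    intro A hA
    obtain ⟨P, hP, hAP⟩ := mem_iUnion₂.1 hA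
    exact (hClS P A hAP).trans (subset_biUnion_of_mem (u := fun P : U' => Cl (P : Set Y)) hP)
  have hQo : ∀ O, IsOpen (Q O) := by
    intro O
    have h1 : IsOpen (⋃₀ Cl (O : Set Y)) := isOpen_sUnion fun s hs => (hClU O O.2 hs).1
    exact h1.inter (hlow O)
  have hQc : ∀ O, IsOpen (Q O)ᶜ := by
    intro O
    have h1 : IsOpen (⋃₀ Cl (O : Set Y))ᶜ := hclosed _ (hClU O O.2) (hClS O)
    have h2 : IsOpen (⋃₀ (⋃ P ∈ {P : U' | r P O}, Cl (P : Set Y))) := by
      refine isOpen_sUnion fun s hs => ?_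
      obtain ⟨P, _, hsP⟩ := mem_iUnion₂.1 hs
      exact (hClU P P.2 hsP).1
    have h3 : (Q O)ᶜ = (⋃₀ Cl (O : Set Y))ᶜ ∪ ⋃₀ (⋃ P ∈ {P : U' | r P O}, Cl (P : Set Y)) := by
      simp only [Q, sdiff_eq, compl_inter, compl_compl]
    rw [h3]
    exact h1.union h2
  have hQex : ∀ y, ∃ O, y ∈ Q O := by
    intro y
    have : y ∈ ⋃₀ U' := by rw [hU'cov]; trivial
    obtain ⟨s, hs, hys⟩ := this
    have hwf : WellFounded r := WellOrderingRel.isWellOrder.wf
    obtain ⟨O, hO, hmin⟩ := hwf.has_min {O : U' | y ∈ ⋃₀ Cl (O : Set Y)} ⟨⟨s, hs⟩, s, hClO s, hys⟩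
    refine ⟨O, hO, ?_⟩
    rintro ⟨A, hA, hyA⟩
    obtain ⟨P, hP, hAP⟩ := mem_iUnion₂.1 hA
    exact hmin P ⟨A, hAP, hyA⟩ hP
  have hQd : ∀ y O P, y ∈ Q O → y ∈ Q P → O = P := by
    intro y O P hO hP
    have key : ∀ O P : U', y ∈ Q O → y ∈ Q P → ¬ r O P := by
      intro O P hO hP h
      obtain ⟨A, hA, hyA⟩ := hO.1
      exact hP.2 ⟨A, mem_biUnion (show O ∈ {O : U' | r O P} from h) hA, hyA⟩
    rcases trichotomous_of r O P with h | h | h
    · exact absurd h (key O P hO hP)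
    · exact h
    · exact absurd h (key P O hP hO)
  -- refine in every piece
  have hpiece : ∀ O : U', ∃ V : Set (Set Y), PCRefinement
      (insert (Q O)ᶜ ((fun A => A ∩ Q O) '' Cl (O : Set Y))) V := by
    intro O
    refine hY1 _ ?_ ?_ ?_
    · rintro s (rfl | ⟨A, hA, rfl⟩)
      · exact hQc O
      · exact (hClU O O.2 hA).1.inter (hQo O)
    · apply Subset.antisymm (subset_univ _)
      intro y _
      by_cases hy : y ∈ Q O
      · obtain ⟨A, hA, hyA⟩ := hy.1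
        exact ⟨_, Or.inr ⟨A, hA, rfl⟩, hyA, hy⟩
      · exact ⟨_, Or.inl rfl, hy⟩
    · refine (Cardinal.mk_insert_le).trans ?_
      refine (add_le_add (Cardinal.mk_image_le.trans (hClc O O.2))
        (Cardinal.one_le_aleph0.trans (Cardinal.aleph0_le_aleph 1))).trans ?_
      exact (Cardinal.add_eq_self (Cardinal.aleph0_le_aleph 1)).le
  choose V hVo hVc hVr hVp using hpiece
  refine ⟨{s | ∃ O, ∃ A ∈ V O, s = A ∩ Q O ∧ s.Nonempty}, ?_, ?_, ?_, ?_⟩
  · rintro s ⟨O, A, hA, rfl, _⟩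
    exact (hVo O A hA).inter (hQo O)
  · apply Subset.antisymm (subset_univ _)
    intro y _
    obtain ⟨O, hO⟩ := hQex y
    have : y ∈ ⋃₀ V O := by rw [hVc O]; trivial
    obtain ⟨A, hA, hyA⟩ := this
    exact ⟨A ∩ Q O, ⟨O, A, hA, rfl, y, hyA, hO⟩, hyA, hO⟩
  · rintro s ⟨O, A, hA, rfl, ⟨y, hyA, hyO⟩⟩
    obtain ⟨t, ht, hAt⟩ := hVr O A hA
    rcases ht with rfl | ⟨B, hB, rfl⟩
    · exact absurd hyO (hAt hyA)
    · obtain ⟨s, hs, hBs⟩ := (hClU O O.2 hB).2.1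
      exact ⟨s, hs, fun z hz => hBs (hAt hz.1).1⟩
  · intro y
    obtain ⟨O, hO⟩ := hQex y
    refine ((hVp O y).image (fun A => A ∩ Q O)).mono ?_
    rintro s ⟨⟨P, A, hA, rfl, _⟩, hyA, hyP⟩
    obtain rfl := hQd y O P hO hyP
    exact ⟨A, ⟨hA, hyA⟩, rfl⟩

end Pool.Agent.Results.MP_e848aa_gt.LocalDensity
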